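import Mathlib

set_option autoImplicit false

namespace Pool.Agent.Results.MP_425159_co.Parity

theorem result (S : Type) [Fintype S] (m : S → S → S) (hl : ∀ a b, ∃! x, m a x = b)
    (hr : ∀ a b, ∃! x, m x a = b) (hE : ∀ x y, m (m (m x y) x) y = x) :
    Fintype.card S % 4 = 0 ∨ Fintype.card S % 4 = 1 := by
  classical
  let L : Equiv.Perm (S × S) := Equiv.prodCongrRight
    (fun a => Equiv.ofBijective (m a) ((Function.bijective_iff_existsUnique _).2 (hl a)))
  let R : Equiv.Perm (S × S) := Equiv.prodCongrLeft
    (fun a => Equiv.ofBijective (m · a) ((Function.bijective_iff_existsUnique _).2 (hr a)))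
  let τ : Equiv.Perm (S × S) := Equiv.prodComm S S
  have key : R * τ * L * R = L := by
    ext1 ⟨z, y⟩
    exact Prod.ext ((hr y (m z y)).unique (hE _ _) rfl) rfl
  have s : Equiv.Perm.sign τ = 1 := by
    have := congrArg Equiv.Perm.sign key
    simp only [map_mul] at this
    rcases Int.units_eq_one_or (Equiv.Perm.sign R) with h1 | h1 <;>
      rcases Int.units_eq_one_or (Equiv.Perm.sign L) with h2 | h2 <;> simpa [h1, h2] using this
  rw [Equiv.Perm.sign_of_pow_two_eq_one (by ext1 ⟨a, b⟩; rfl)] at s
  have c : Fintype.card (Function.fixedPoints τ) = Fintype.card S :=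
    Fintype.card_congr ⟨fun p => p.1.1, fun a => ⟨(a, a), rfl⟩,
      fun p => Subtype.ext (Prod.ext rfl (show p.1.1 = p.1.2 from congrArg Prod.snd p.2)), fun _ => rfl⟩
  rw [c, Fintype.card_prod, neg_one_pow_eq_one_iff_even (by decide)] at s
  generalize Fintype.card S = n at s
  obtain ⟨k, hk⟩ := s
  have h2 : n * n = 4 * (n / 4) * (n + n % 4) + (n % 4) * (n % 4) := by
    have := Nat.div_add_mod n 4
    generalize n / 4 = a at *
    generalize n % 4 = b at *
    subst this
    ring
  have h3 : n ≤ n * n := Nat.le_mul_self n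
  have h4 : n % 4 < 4 := Nat.mod_lt _ (by norm_num)
  rw [mul_assoc] at h2
  generalize n / 4 * (n + n % 4) = q at h2
  generalize n * n = w at *
  interval_cases e : n % 4 <;> omega

end Pool.Agent.Results.MP_425159_co.Parity
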